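import Pool.Agent.H55R3.GCH.Stmts
import Pool.Agent.H330.EndHom

/-! Task Many of project H55GCH -/

set_option autoImplicit false

open Cardinal Set Order

universe u

namespace Pool.Agent.H174R3.GCHMany

open Pool.Agent.H330 Pool.Agent.H55R3.GCH

lemma mk_finset_le' (α : Type u) (c : Cardinal.{u}) (hc : ℵ₀ ≤ c) (h : #α ≤ c) :
    #(Finset α) ≤ c := by
  rcases finite_or_infinite α with hf | hi
  · have : Finite (Finset α) := inferInstance
    exact le_trans (Cardinal.lt_aleph0_of_finite _).le hc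
  · rw [mk_finset_of_infinite]
    exact h

lemma mk_pre_le {W Γ : Type u} (g : W → Γ) (B : Set Γ) :
    #(g ⁻¹' B) ≤ Cardinal.sum (fun ν : B => #(g ⁻¹' {ν.1})) := by
  have e : g ⁻¹' B = ⋃ ν : B, g ⁻¹' {ν.1} := by
    ext w
    simp
  rw [e]
  exact mk_iUnion_le_sum_mk

theorem taskMany : TaskMany.{u} := by
  intro hG κ η hη hcof hηκ Γ lam f hΓ hlam hNA τ hτ
  classical
  have hsucc : ∀ x < η, ℵ₀ ≤ x → succ x < η := by
    intro x hx hx0
    refine lt_of_le_of_ne (succ_le_of_lt hx) fun h => ?_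
    have := (isRegular_succ hx0).cof_ord
    rw [h] at this
    exact hcof.ne this
  have hunc : ℵ₀ < η := by
    refine lt_of_le_of_ne hη fun h => ?_
    have := isRegular_aleph0.{u}.cof_ord
    rw [h] at this
    exact hcof.ne this
  have htypes : ∀ w : η.ord.ToType, #(Finset (Iio w) → Γ) ≤ η := by
    intro w
    set c : Cardinal.{u} := max (max #(Iio w) #Γ) ℵ₀ with hc
    have hc0 : ℵ₀ ≤ c := le_max_right _ _
    have hcη : c < η := by
      rw [hc]
      exact max_lt (max_lt (mk_Iio_toType_ord_lt w) hΓ) hunc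
    have h1 : #(Iio w) ≤ c := le_trans (le_max_left _ _) (le_max_left _ _)
    have h2 : #Γ ≤ c := le_trans (le_max_right _ _) (le_max_left _ _)
    have h3 : #(Finset (Iio w)) ≤ c := mk_finset_le' _ c hc0 h1
    have h4 : #(Finset (Iio w) → Γ) = #Γ ^ #(Finset (Iio w)) := by
      rw [Cardinal.power_def]
    rw [h4]
    calc #Γ ^ #(Finset (Iio w)) ≤ ((2 : Cardinal.{u}) ^ c) ^ #(Finset (Iio w)) :=
          Cardinal.power_le_power_right (h2.trans (cantor c).le)
      _ ≤ ((2 : Cardinal.{u}) ^ c) ^ c := by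
          apply Cardinal.power_le_power_left _ h3
          exact (Cardinal.power_ne_zero _ two_ne_zero)
      _ = (2 : Cardinal.{u}) ^ c := by rw [← Cardinal.power_mul, mul_eq_self hc0]
      _ = succ c := hG c hc0
      _ ≤ η := (hsucc c hcη hc0).le
  have hsum : Cardinal.sum (fun w : η.ord.ToType => #(Finset (Iio w) → Γ)) < #κ.ord.ToType := by
    rw [mk_ord_toType]
    refine lt_of_le_of_lt ?_ hηκ
    calc Cardinal.sum (fun w : η.ord.ToType => #(Finset (Iio w) → Γ))
        ≤ Cardinal.sum (fun _ : η.ord.ToType => η) := Cardinal.sum_le_sum _ _ htypes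
      _ = η := by rw [Cardinal.sum_const', mk_ord_toType, mul_eq_self hη]
  obtain ⟨p, x, hx, -, hend⟩ := end_homog f hsum
  let g : η.ord.ToType → Γ := fun v => f (insert p {x v})
  have hpair : ∀ v w, v < w → f (insert (x w) {x v}) = g v := by
    intro v w hvw
    have := hend w {v} (by simpa using hvw)
    simpa [g] using this
  have hC : ∀ ν, #(g ⁻¹' {ν}) < lam ν := by
    intro ν
    by_contra h
    push Not at h
    rw [← mk_image_eq hx] at h
    obtain ⟨s, hs2, hsY, hsν⟩ := hNA.of_le h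
    apply hsν
    obtain ⟨a, b, hab, rfl⟩ := Finset.card_eq_two.mp hs2
    have ha : a ∈ x '' (g ⁻¹' {ν}) := hsY (by simp)
    have hb : b ∈ x '' (g ⁻¹' {ν}) := hsY (by simp)
    obtain ⟨v, hv, rfl⟩ := ha
    obtain ⟨w, hw, rfl⟩ := hb
    have hvw : v ≠ w := fun h => hab (by rw [h])
    rcases lt_or_gt_of_ne hvw with h1 | h1
    · rw [Finset.pair_comm]
      rw [hpair v w h1]
      exact hv
    · rw [hpair w v h1]
      exact hw
  by_contra hlt
  push Not at hlt
  set B : Set Γ := {ν : Γ | τ < lam ν} with hB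
  have hb1 : #(g ⁻¹' B) < η := by
    refine lt_of_le_of_lt (mk_pre_le g B) ?_
    refine lt_of_le_of_lt (sum_le_mk_mul_iSup _) ?_
    exact mul_lt_of_lt hη (hlt.trans hcof)
      (iSup_lt_of_lt_cof_ord hlt fun ν => lt_of_lt_of_le (hC ν.1) (hlam ν.1).2)
  have hb2 : #(g ⁻¹' Bᶜ) < η := by
    refine lt_of_le_of_lt (mk_pre_le g Bᶜ) ?_
    calc Cardinal.sum (fun ν : (Bᶜ : Set Γ) => #(g ⁻¹' {ν.1}))
        ≤ Cardinal.sum (fun _ : (Bᶜ : Set Γ) => τ) := by
          apply Cardinal.sum_le_sum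
          intro ν
          have h1 : lam ν.1 ≤ τ := by
            have := ν.2
            simp only [hB, mem_compl_iff, mem_setOf_eq, not_lt] at this
            exact this
          exact (lt_of_lt_of_le (hC ν.1) h1).le
      _ = #(Bᶜ : Set Γ) * τ := Cardinal.sum_const' _ _
      _ < η := mul_lt_of_lt hη (lt_of_le_of_lt (mk_set_le _) hΓ) hτ
  have hall : #η.ord.ToType ≤ #(g ⁻¹' B) + #(g ⁻¹' Bᶜ) := by
    rw [← mk_univ, show (univ : Set η.ord.ToType) = g ⁻¹' B ∪ g ⁻¹' Bᶜ by
      ext w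
      simp [em]]
    exact mk_union_le _ _
  rw [mk_ord_toType] at hall
  exact absurd (add_lt_of_lt hη hb1 hb2) (not_lt.mpr hall)

end Pool.Agent.H174R3.GCHMany
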